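import Pool.Agent.R384.Prd

/-!
# From the inertia group to the decomposition group
-/

set_option autoImplicit false
set_option linter.unusedSectionVars false

namespace Pool.Agent.K3h12.SS

open Pool.Agent.R384
open Pool.Agent.Y715.Red Pool.Agent.Y715.Nr Pool.Agent.W237.RK
open Pool.Agent.Y715.Gi (QB KK GK i₀_mem gk_fix)
open Pool.Agent.Y715.Df (Cmp exists_cmp)

open scoped Classical

/-- automorphisms commute on roots of unity -/
lemma comm_root {p : ℕ} [Fact p.Prime] (τ F : Au p) {c : PadicAlgCl p} {M : ℕ} (hM : M ≠ 0)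
    (hc : c ^ M = 1) : τ (F c) = F (τ c) := by
  have h0 : IsOfFinOrder c := isOfFinOrder_iff_pow_eq_one.2 ⟨M, Nat.pos_of_ne_zero hM, hc⟩
  have hpos : 0 < orderOf c := h0.orderOf_pos
  have hp := IsPrimitiveRoot.orderOf c
  haveI : NeZero (orderOf c) := ⟨hpos.ne'⟩
  have key : ∀ σ : Au p, ∃ k : ℕ, σ c = c ^ k := by
    intro σ
    have h1 : (σ c) ^ orderOf c = 1 := by rw [← map_pow, pow_orderOf_eq_one, map_one]
    obtain ⟨i, -, hi⟩ := hp.eq_pow_of_pow_eq_one h1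
    exact ⟨i, hi.symm⟩
  obtain ⟨a, ha⟩ := key τ
  obtain ⟨b, hb⟩ := key F
  rw [hb, ha, map_pow, map_pow, ha, hb, ← pow_mul, ← pow_mul, mul_comm]

/-- the Galois group of the residue field is abelian -/
lemma inert_comm {p : ℕ} [Fact p.Prime] (τ F : Au p) : Inert (τ⁻¹ * F⁻¹ * τ * F) := by
  intro z hz
  obtain ⟨c, hc, hzc⟩ := Pool.Agent.W571.RK.l3 p z hz
  have hτc : (τ⁻¹ * F⁻¹ * τ * F) c = c := by
    rcases hc with rfl | ⟨M, hM, hcM⟩
    · exact map_zero _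
    · have hM0 : M ≠ 0 := by
        rintro rfl
        exact hM (dvd_zero _)
      have h1 := comm_root τ F hM0 hcM
      show τ⁻¹ (F⁻¹ (τ (F c))) = c
      rw [h1]
      have h2 : F⁻¹ (F (τ c)) = τ c := by
        rw [← AlgEquiv.mul_apply, inv_mul_cancel, AlgEquiv.one_apply]
      rw [h2, ← AlgEquiv.mul_apply, inv_mul_cancel, AlgEquiv.one_apply]
  have e : (τ⁻¹ * F⁻¹ * τ * F) z - z = (τ⁻¹ * F⁻¹ * τ * F) (z - c) - (z - c) := by
    rw [map_sub, hτc]
    ring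
  rw [e]
  refine sub_lt ?_ hzc
  rwa [nrm]

lemma cmp_inv {p : ℕ} [Fact p.Prime] {i₀ : QB} {ι : QB →ₐ[ℚ] PadicAlgCl p} {t : Au p} {τ : GK i₀}
    (h3 : Cmp ι t τ) : Cmp ι t⁻¹ τ⁻¹ := by
  intro x
  have h5 := h3 (τ⁻¹ x)
  rw [← AlgEquiv.mul_apply τ τ⁻¹, mul_inv_cancel, AlgEquiv.one_apply] at h5
  rw [← h5, ← AlgEquiv.mul_apply t⁻¹ t, inv_mul_cancel, AlgEquiv.one_apply]

lemma comm_mem {p : ℕ} [Fact p.Prime] {i₀ : QB} {ι : QB →ₐ[ℚ] PadicAlgCl p} {τ F : GK i₀}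
    (h1 : τ ∈ (DD ι : Set (GK i₀))) (h2 : F ∈ (DD ι : Set (GK i₀))) :
    τ⁻¹ * F⁻¹ * τ * F ∈ (II ι : Set (GK i₀)) := by
  obtain ⟨t, ht⟩ := h1
  obtain ⟨f, hf⟩ := h2
  exact ⟨t⁻¹ * f⁻¹ * t * f, (((cmp_inv ht).mul (cmp_inv hf)).mul ht).mul hf, inert_comm t f⟩

section gen

variable {B : Type} [Fintype B] {G : Type} [Group G] [TopologicalSpace G]
  {R : Representation ℚ_[2] G (B → ℚ_[2])} {c : G → B → ℚ_[2]}

lemma RM (a b : G) (x : B → ℚ_[2]) : R (a * b) x = R a (R b x) := by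
  rw [map_mul]
  rfl

/-- **From the inertia group to the decomposition group**, some coordinates. -/
theorem vdec_S {S : Set B} {I D : Set G} (hc : VCoc R c) (h : VCobS R S I c) {F : G} (hFD : F ∈ D)
    (hID : I ⊆ D) (hF : ∀ v : B → ℚ_[2], (∀ b, b ∉ S → v b = 0) → (∀ b ∈ S, R F v b = v b) → v = 0)
    (hconj : ∀ σ ∈ I, F⁻¹ * σ * F ∈ I) (hcomm : ∀ τ ∈ D, τ⁻¹ * F⁻¹ * τ * F ∈ I)
    (hst : ∀ σ ∈ D, ∀ v : B → ℚ_[2], (∀ b ∈ S, v b = 0) → ∀ b ∈ S, R σ v b = 0) :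
    VCobS R S D c := by
  obtain ⟨y, hy⟩ := h
  -- congruence on the coordinates in `S`
  have hcong : ∀ σ ∈ D, ∀ u v : B → ℚ_[2], (∀ b ∈ S, u b = v b) → ∀ b ∈ S, R σ u b = R σ v b := by
    intro σ hσ u v huv b hb
    have h1 := hst σ hσ (u - v) (fun b hb => by rw [Pi.sub_apply, huv b hb, sub_self]) b hb
    rw [map_sub, Pi.sub_apply, sub_eq_zero] at h1
    exact h1
  let P : (B → ℚ_[2]) →ₗ[ℚ_[2]] (B → ℚ_[2]) :=
    { toFun := fun v b => if b ∈ S then v b else 0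
      map_add' := by
        intro u v
        funext b
        simp only [Pi.add_apply]
        split_ifs
        · rfl
        · rw [add_zero]
      map_smul' := by
        intro a v
        funext b
        simp only [Pi.smul_apply, smul_eq_mul, RingHom.id_apply]
        split_ifs
        · rfl
        · rw [mul_zero] }
  have hP1 : ∀ v b, b ∈ S → P v b = v b := fun v b hb => if_pos hb
  have hP0 : ∀ v b, b ∉ S → P v b = 0 := fun v b hb => if_neg hb
  let W : Submodule ℚ_[2] (B → ℚ_[2]) :=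
    { carrier := {v | (∀ b, b ∉ S → v b = 0) ∧ ∀ σ ∈ I, ∀ b ∈ S, R σ v b = v b}
      add_mem' := fun {u v} hu hv => ⟨fun b hb => by rw [Pi.add_apply, hu.1 b hb, hv.1 b hb, add_zero],
        fun σ hσ b hb => by rw [map_add, Pi.add_apply, hu.2 σ hσ b hb, hv.2 σ hσ b hb]; rfl⟩
      zero_mem' := ⟨fun b _ => rfl, fun σ _ b _ => by rw [map_zero]⟩
      smul_mem' := fun a v hv => ⟨fun b hb => by rw [Pi.smul_apply, hv.1 b hb, smul_zero],
        fun σ hσ b hb => by rw [map_smul, Pi.smul_apply, hv.2 σ hσ b hb]; rfl⟩ }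
  have hW : ∀ v, v ∈ W ↔ (∀ b, b ∉ S → v b = 0) ∧ ∀ σ ∈ I, ∀ b ∈ S, R σ v b = v b := fun v => Iff.rfl
  let L₀ : (B → ℚ_[2]) →ₗ[ℚ_[2]] (B → ℚ_[2]) := P ∘ₗ (R F - LinearMap.id)
  have hL0 : ∀ v, L₀ v = P (R F v - v) := fun v => rfl
  have hL : ∀ v ∈ W, L₀ v ∈ W := by
    intro v hv
    rw [hW]
    refine ⟨fun b hb => hP0 _ b hb, fun σ hσ b hb => ?_⟩
    have h1 := hcong σ (hID hσ) (L₀ v) (R F v - v) (fun b hb => hP1 _ b hb) b hb
    rw [h1, hL0, hP1 _ b hb, map_sub]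
    have h2 := ((hW v).1 hv).2 (F⁻¹ * σ * F) (hconj σ hσ)
    have e : σ * F = F * (F⁻¹ * σ * F) := by group
    have h3 := hcong F hFD (R (F⁻¹ * σ * F) v) v h2 b hb
    rw [Pi.sub_apply, Pi.sub_apply, ← RM, e, RM, h3, ((hW v).1 hv).2 σ hσ b hb]
  have hinj : Function.Injective (L₀.restrict hL) := by
    rw [← LinearMap.ker_eq_bot, LinearMap.ker_eq_bot']
    intro v hv
    have h2 : L₀ v.1 = 0 := congrArg Subtype.val hv
    refine Subtype.ext (hF v.1 ((hW v.1).1 v.2).1 fun b hb => ?_)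
    have h3 := congrFun h2 b
    rw [hL0, hP1 _ b hb, Pi.sub_apply, Pi.zero_apply, sub_eq_zero] at h3
    exact h3
  -- the modified cocycle
  set g : G → B → ℚ_[2] := fun σ => c σ - (R σ y - y) with hg
  have hgI : ∀ σ ∈ I, ∀ b ∈ S, g σ b = 0 := by
    intro σ hσ b hb
    rw [hg]
    show c σ b - (R σ y - y) b = 0
    rw [hy σ hσ b hb, sub_self]
  have hgm : ∀ σ τ, g (σ * τ) = g σ + R σ (g τ) := by
    intro σ τ
    rw [hg]
    simp only [hc.mul, RM, map_sub]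
    abel
  have hgFW : P (g F) ∈ W := by
    rw [hW]
    refine ⟨fun b hb => hP0 _ b hb, fun σ hσ b hb => ?_⟩
    have h1 := hcong σ (hID hσ) (P (g F)) (g F) (fun b hb => hP1 _ b hb) b hb
    rw [h1, hP1 _ b hb]
    have h2 := congrFun (hgm σ F) b
    have e : σ * F = F * (F⁻¹ * σ * F) := by group
    rw [e, hgm, Pi.add_apply, Pi.add_apply, hgI σ hσ b hb, zero_add] at h2
    have h3 := hst F hFD (g (F⁻¹ * σ * F)) (hgI _ (hconj σ hσ)) b hb
    rw [h3, add_zero] at h2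
    exact h2.symm
  obtain ⟨z, hz⟩ := LinearMap.surjective_of_injective hinj ⟨_, hgFW⟩
  have hz' : ∀ b ∈ S, R F z.1 b - z.1 b = g F b := by
    intro b hb
    have h1 : L₀ z.1 = P (g F) := congrArg Subtype.val hz
    have h2 := congrFun h1 b
    rw [hL0, hP1 _ b hb, hP1 _ b hb] at h2
    exact h2
  have hzW := (hW z.1).1 z.2
  -- the values
  have key : ∀ τ ∈ D, ∀ b ∈ S, g τ b = R τ z.1 b - z.1 b := by
    intro τ hτ
    set u : B → ℚ_[2] := g τ - (R τ z.1 - z.1) with hu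
    set κ : G := τ⁻¹ * F⁻¹ * τ * F with hκ
    have hκI := hcomm τ hτ
    have e : τ * F = F * (τ * κ) := by rw [hκ]; group
    have hstep : ∀ b ∈ S, R F u b = u b := by
      intro b hb
      -- the cocycle
      have h1 := congrFun (hgm τ F) b
      rw [e, hgm, Pi.add_apply, Pi.add_apply] at h1
      have h2 : R F (g (τ * κ)) b = R F (g τ) b := by
        refine hcong F hFD _ _ (fun b hb => ?_) b hb
        rw [hgm, Pi.add_apply, hst τ hτ (g κ) (hgI κ hκI) b hb, add_zero]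
      rw [h2] at h1
      -- the coboundary
      have h3 : R F (R τ z.1) b = R τ (R F z.1) b := by
        have h4 : R F (R τ (R κ z.1)) b = R F (R τ z.1) b :=
          hcong F hFD _ _ (fun b hb => hcong τ hτ _ _ (hzW.2 κ hκI) b hb) b hb
        have e' : F * τ * κ = τ * F := by rw [e, mul_assoc]
        rw [← h4, ← RM, ← RM, ← RM, e']
      have h5 : R τ (g F) b = R τ (R F z.1) b - R τ z.1 b := by
        rw [← Pi.sub_apply, ← map_sub]
        exact hcong τ hτ _ _ (fun b hb => by rw [Pi.sub_apply]; exact (hz' b hb).symm) b hb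
      have h6 := hz' b hb
      rw [hu]
      simp only [map_sub, Pi.sub_apply]
      rw [h3]
      rw [h5] at h1
      linear_combination h1 + h6
    have hPu : P u = 0 := by
      apply hF
      · exact fun b hb => hP0 _ b hb
      · intro b hb
        rw [hcong F hFD (P u) u (fun b hb => hP1 _ b hb) b hb, hstep b hb, hP1 _ b hb]
    intro b hb
    have h7 := congrFun hPu b
    rw [hP1 _ b hb, Pi.zero_apply, hu, Pi.sub_apply, Pi.sub_apply, sub_eq_zero] at h7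
    exact h7
  refine ⟨z.1 + y, fun τ hτ b hb => ?_⟩
  have h1 := key τ hτ b hb
  rw [hg] at h1
  have h2 : c τ b - (R τ y b - y b) = R τ z.1 b - z.1 b := h1
  rw [Pi.sub_apply, map_add, Pi.add_apply, Pi.add_apply]
  linear_combination h2

end gen

end Pool.Agent.K3h12.SS
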